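import Mathlib

/-!
# A triangle graph that is not normal

Let `F` be the graph on `{0, …, 8}` in which each of `2, 3, 4` is adjacent to each of
`5, 6, 7, 8`, and which has the further edges `01, 15, 16, 07, 08`.  It is triangle-free and
has minimum degree `3`.  The complement of its line graph has 17 vertices, is a triangle graph
and is not normal.
-/

set_option autoImplicit false

namespace Pool.Agent.Results.MP_de1832_co.TriangleNotNormal

/-- `G` is a triangle graph: for every maximal stable set `S` and every edge `uv` of `G - S`,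
some vertex of `S` is adjacent to both `u` and `v`. -/
def IsTriangleGraph {V : Type*} (G : SimpleGraph V) : Prop :=
  ∀ S : Set V, Maximal (fun T : Set V => G.IsIndepSet T) S →
    ∀ u v : V, u ∉ S → v ∉ S → G.Adj u v → ∃ w ∈ S, G.Adj u w ∧ G.Adj v w

/-- `G` is normal: there are a family `𝒞` of cliques and a family `𝒮` of stable sets, each of
them covering all vertices, such that every member of `𝒞` meets every member of `𝒮`. -/
def IsNormal {V : Type*} (G : SimpleGraph V) : Prop :=
  ∃ 𝒞 𝒮 : Set (Set V), (∀ C ∈ 𝒞, G.IsClique C) ∧ (∀ S ∈ 𝒮, G.IsIndepSet S) ∧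
    (∀ v, ∃ C ∈ 𝒞, v ∈ C) ∧ (∀ v, ∃ S ∈ 𝒮, v ∈ S) ∧
    ∀ C ∈ 𝒞, ∀ S ∈ 𝒮, (C ∩ S).Nonempty

/-- the edges of `F` -/
def edge : Fin 17 → Fin 9 × Fin 9 :=
  ![(0, 1), (1, 5), (1, 6), (0, 7), (0, 8),
    (2, 5), (3, 5), (4, 5), (2, 6), (3, 6), (4, 6),
    (2, 7), (3, 7), (4, 7), (2, 8), (3, 8), (4, 8)]

/-- the edge `e` of `F` contains the vertex `x` -/
def inc (e : Fin 17) (x : Fin 9) : Prop := (edge e).1 = x ∨ (edge e).2 = x

instance : DecidableRel inc := fun e x => inferInstanceAs (Decidable (_ ∨ _))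

/-- the edges `e` and `f` of `F` have no common vertex -/
def disj (e f : Fin 17) : Prop := ¬ inc f (edge e).1 ∧ ¬ inc f (edge e).2

instance : DecidableRel disj := fun e f => inferInstanceAs (Decidable (_ ∧ _))

/-- The graph: its vertices are the 17 edges of `F`, two of them adjacent if they are
disjoint. -/
def G : SimpleGraph (Fin 17) where
  Adj e f := disj e f
  symm := ⟨by decide +kernel⟩
  loopless := ⟨by decide +kernel⟩

instance : DecidableRel G.Adj := fun e f => inferInstanceAs (Decidable (disj e f))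

/-- three pairwise intersecting edges of `F` have a common vertex (`F` is triangle-free) -/
theorem helly3 : ∀ e f : Fin 17, ¬ disj e f → ∀ g : Fin 17, ¬ disj e g → ¬ disj f g →
    ∃ x, inc e x ∧ inc f x ∧ inc g x := by
  decide +kernel

theorem disj_self : ∀ e : Fin 17, ¬ disj e e := by
  decide +kernel

/-- a non-empty stable set of `G` is contained in a star of `F` -/
theorem star_of_indep {S : Set (Fin 17)} (hS : G.IsIndepSet S) {e : Fin 17} (he : e ∈ S) :
    ∃ x, inc e x ∧ ∀ f ∈ S, inc f x := by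
  have hd : ∀ a ∈ S, ∀ b ∈ S, ¬ disj a b := by
    intro a ha b hb
    by_cases hab : a = b
    · subst hab
      exact disj_self a
    · exact hS ha hb hab
  by_cases h1 : ∀ f ∈ S, inc f (edge e).1
  · exact ⟨(edge e).1, Or.inl rfl, h1⟩
  by_cases h2 : ∀ f ∈ S, inc f (edge e).2
  · exact ⟨(edge e).2, Or.inr rfl, h2⟩
  exfalso
  push Not at h1 h2
  obtain ⟨f, hf, hf1⟩ := h1
  obtain ⟨g, hg, hg2⟩ := h2
  obtain ⟨x, hx1, hx2, hx3⟩ := helly3 e f (hd e he f hf) g (hd e he g hg) (hd f hf g hg)
  rcases hx1 with hx1 | hx1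
  · exact hf1 (hx1 ▸ hx2)
  · exact hg2 (hx1 ▸ hx3)

/-- `F` has minimum degree at least three, in the following form: for two disjoint edges not
containing `x`, some edge at `x` is disjoint from both -/
theorem third_edge : ∀ (x : Fin 9) (u : Fin 17), ¬ inc u x → ∀ v : Fin 17, ¬ inc v x →
    ∃ w, inc w x ∧ disj u w ∧ disj v w := by
  decide +kernel

theorem G_triangle : IsTriangleGraph G := by
  intro S hS u v hu hv _
  have hne : S.Nonempty := by
    by_contra hcon
    rw [Set.not_nonempty_iff_eq_empty] at hcon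
    have h1 : G.IsIndepSet ({u} : Set (Fin 17)) := by
      intro a ha b hb hab
      exact absurd (ha.trans hb.symm) hab
    have h2 := hS.2 h1 (by rw [hcon]; exact Set.empty_subset _)
    rw [hcon] at h2
    exact h2 (Set.mem_singleton u)
  obtain ⟨e, he⟩ := hne
  obtain ⟨x, -, hx⟩ := star_of_indep hS.1 he
  -- by maximality `S` is the star of `x`
  have hstar : ∀ f, inc f x → f ∈ S := by
    intro f hf
    have h1 : G.IsIndepSet (insert f S) := by
      intro a ha b hb hab hadj
      have hax : inc a x := by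
        rcases ha with ha | ha
        · rw [ha]
          exact hf
        · exact hx a ha
      have hbx : inc b x := by
        rcases hb with hb | hb
        · rw [hb]
          exact hf
        · exact hx b hb
      have hadj' : disj a b := hadj
      rcases hax with h | h
      · exact hadj'.1 (h ▸ hbx)
      · exact hadj'.2 (h ▸ hbx)
    exact hS.2 h1 (Set.subset_insert f S) (Set.mem_insert f S)
  obtain ⟨w, hw, huw, hvw⟩ := third_edge x u (fun h => hu (hstar u h)) v
    (fun h => hv (hstar v h))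
  exact ⟨w, hstar w hw, huw, hvw⟩

/-- two edges are equal or disjoint -/
def comp (e f : Fin 17) : Prop := e = f ∨ disj e f

instance : DecidableRel comp := fun e f => inferInstanceAs (Decidable (_ ∨ _))

/-- no matching contains `01` and covers `5, 6, 7, 8` -/
theorem noMatch1 : ∀ a, inc a 5 → comp 0 a → ∀ b, inc b 6 → comp 0 b → comp a b →
    ∀ c, inc c 7 → comp 0 c → comp a c → comp b c →
    ∀ d, inc d 8 → comp 0 d → comp a d → comp b d → comp c d → False := by
  decide +kernel

/-- no matching contains `07` and covers `1, 2, 3, 4` -/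
theorem noMatch2 : ∀ a, inc a 1 → comp 3 a → ∀ b, inc b 2 → comp 3 b → comp a b →
    ∀ c, inc c 3 → comp 3 c → comp a c → comp b c →
    ∀ d, inc d 4 → comp 3 d → comp a d → comp b d → comp c d → False := by
  decide +kernel

/-- no matching contains `15` and covers `0, 2, 3, 4` -/
theorem noMatch3 : ∀ a, inc a 0 → comp 1 a → ∀ b, inc b 2 → comp 1 b → comp a b →
    ∀ c, inc c 3 → comp 1 c → comp a c → comp b c →
    ∀ d, inc d 4 → comp 1 d → comp a d → comp b d → comp c d → False := by
  decide +kernel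

theorem G_not_normal : ¬ IsNormal G := by
  rintro ⟨𝒞, 𝒮, hC, hS, hC', hS', hCS⟩
  -- the members of `𝒞` are matchings
  have hcomp : ∀ C ∈ 𝒞, ∀ a ∈ C, ∀ b ∈ C, comp a b := by
    intro C hCC a ha b hb
    by_cases hab : a = b
    · exact Or.inl hab
    · exact Or.inr (hC C hCC ha hb hab)
  -- every edge of `F` has an end that is covered by all members of `𝒞`
  have hsat : ∀ e : Fin 17, ∃ x, inc e x ∧ ∀ C ∈ 𝒞, ∃ m ∈ C, inc m x := by
    intro e
    obtain ⟨S, hSS, heS⟩ := hS' e
    obtain ⟨x, hex, hx⟩ := star_of_indep (hS S hSS) heS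
    refine ⟨x, hex, fun C hCC => ?_⟩
    obtain ⟨m, hm1, hm2⟩ := hCS C hCC S hSS
    exact ⟨m, hm1, hx m hm2⟩
  have hsat' : ∀ e : Fin 17, (∀ C ∈ 𝒞, ∃ m ∈ C, inc m (edge e).1) ∨
      (∀ C ∈ 𝒞, ∃ m ∈ C, inc m (edge e).2) := by
    intro e
    obtain ⟨x, hx | hx, h⟩ := hsat e
    · rw [hx]
      exact Or.inl h
    · rw [hx]
      exact Or.inr h
  -- three impossible situations
  have key : ∀ (e : Fin 17) (x1 x2 x3 x4 : Fin 9),
      (∀ a, inc a x1 → comp e a → ∀ b, inc b x2 → comp e b → comp a b →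
        ∀ c, inc c x3 → comp e c → comp a c → comp b c →
        ∀ d, inc d x4 → comp e d → comp a d → comp b d → comp c d → False) →
      (∀ C ∈ 𝒞, ∃ m ∈ C, inc m x1) → (∀ C ∈ 𝒞, ∃ m ∈ C, inc m x2) →
      (∀ C ∈ 𝒞, ∃ m ∈ C, inc m x3) → (∀ C ∈ 𝒞, ∃ m ∈ C, inc m x4) → False := by
    intro e x1 x2 x3 x4 hno h1 h2 h3 h4
    obtain ⟨C, hCC, heC⟩ := hC' e
    obtain ⟨a, haC, ha⟩ := h1 C hCC
    obtain ⟨b, hbC, hb⟩ := h2 C hCC
    obtain ⟨c, hcC, hc⟩ := h3 C hCC
    obtain ⟨d, hdC, hd⟩ := h4 C hCC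
    exact hno a ha (hcomp C hCC e heC a haC) b hb (hcomp C hCC e heC b hbC)
      (hcomp C hCC a haC b hbC) c hc (hcomp C hCC e heC c hcC) (hcomp C hCC a haC c hcC)
      (hcomp C hCC b hbC c hcC) d hd (hcomp C hCC e heC d hdC) (hcomp C hCC a haC d hdC)
      (hcomp C hCC b hbC d hdC) (hcomp C hCC c hcC d hdC)
  by_cases h5 : ∀ C ∈ 𝒞, ∃ m ∈ C, inc m 5
  · by_cases h6 : ∀ C ∈ 𝒞, ∃ m ∈ C, inc m 6
    · by_cases h7 : ∀ C ∈ 𝒞, ∃ m ∈ C, inc m 7
      · by_cases h8 : ∀ C ∈ 𝒞, ∃ m ∈ C, inc m 8
        · exact key 0 5 6 7 8 noMatch1 h5 h6 h7 h8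
        · exact key 1 0 2 3 4 noMatch3 ((hsat' 4).resolve_right h8)
            ((hsat' 14).resolve_right h8) ((hsat' 15).resolve_right h8)
            ((hsat' 16).resolve_right h8)
      · exact key 1 0 2 3 4 noMatch3 ((hsat' 3).resolve_right h7)
          ((hsat' 11).resolve_right h7) ((hsat' 12).resolve_right h7)
          ((hsat' 13).resolve_right h7)
    · exact key 3 1 2 3 4 noMatch2 ((hsat' 2).resolve_right h6)
        ((hsat' 8).resolve_right h6) ((hsat' 9).resolve_right h6)
        ((hsat' 10).resolve_right h6)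
  · exact key 3 1 2 3 4 noMatch2 ((hsat' 1).resolve_right h5)
      ((hsat' 5).resolve_right h5) ((hsat' 6).resolve_right h5)
      ((hsat' 7).resolve_right h5)

/-- There is a triangle graph (on 17 vertices) that is not normal. -/
theorem result : ∃ G : SimpleGraph (Fin 17), IsTriangleGraph G ∧ ¬ IsNormal G :=
  ⟨G, G_triangle, G_not_normal⟩

end Pool.Agent.Results.MP_de1832_co.TriangleNotNormal
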